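import Pool.Agent.H59.L.T374d34.N483.KM.Stm1
import Pool.Agent.H59.L.S8.R755.KF.T6
import Pool.Agent.H59.L.S8.R755.KF.G1
import Pool.Agent.H59.L.S8.R755.KF.G4
import Pool.Agent.H59.L.S8.R755.KF.P1

/-!
# KM/STR: smoothing
-/

set_option autoImplicit false

namespace Pool.Agent.N342.KM

open MeasureTheory Set Filter Topology
open scoped ENNReal InnerProductSpace
open Pool.Agent.H888R2.KT (gs gc gs_deriv)
open Pool.Agent.R754.KG (E)
open Pool.Agent.R755.KF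
open Pool.Agent.R755.KF.T36
open Pool.Agent.N483.KM (po LCI S_PST S_LCI S_STR)

variable {k : ℕ} {h : ℝ} {ν : Measure (E k)}

theorem po_le {B : ℝ} (hν : PB B ν) {u : E k → ℝ} (hu : Continuous u) {M : ℝ} (hM : 0 ≤ M)
    (hb : ∀ x, u x ≤ M) (y : E k) : po h ν u y ≤ M := by
  unfold po
  refine div_le_of_le_mul₀ (integral_nonneg fun x => (Real.exp_pos _).le) hM ?_
  unfold zn
  rw [← integral_const_mul]
  have hc : Continuous fun x : E k => Real.exp (-(‖x - y‖ ^ 2 / (2 * h))) := by fun_prop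
  refine integral_mono (pb_int hν (hu.mul hc)) (pb_int hν (continuous_const.mul hc)) fun x => ?_
  exact mul_le_mul_of_nonneg_right (hb x) (Real.exp_pos _).le

theorem po_nonneg {u : E k → ℝ} (hb : ∀ x, 0 ≤ u x) (y : E k) : 0 ≤ po h ν u y := by
  unfold po zn
  exact div_nonneg (integral_nonneg fun x => mul_nonneg (hb x) (Real.exp_pos _).le)
    (integral_nonneg fun x => (Real.exp_pos _).le)

theorem t_STR (h1 : S_PST) (h2 : S_LCI) : S_STR := by
  intro k ν h a C0 f hL hh ha hf hfa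
  obtain ⟨-, -, B, hB0, hν⟩ := h2 k ν hL
  have hprob := hν.prob
  obtain ⟨hF1, hF2, hF3, hF4, hF5⟩ := h1 k ν h a C0 f hL hh ha hf hfa
  have hfc : Continuous f := hf.c1.continuous
  have hf2c : Continuous fun x => f x ^ 2 := hfc.pow 2
  have hf2b : ∀ x, f x ^ 2 ≤ a ^ 2 := fun x => by
    rw [← sq_abs]
    exact pow_le_pow_left₀ (abs_nonneg _) (hfa x) 2
  have hC0 : 0 ≤ C0 := T36.BL.nn hf
  have hgc := cont_nfd hf
  have hgb : ∀ x, ‖fderiv ℝ f x‖ ^ 2 ≤ C0 ^ 2 := fun x =>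
    pow_le_pow_left₀ (norm_nonneg _) (hf.gd x) 2
  set F := po h ν f with hFdef
  have hFc : Continuous F := hF1.continuous
  have hsq : 0 < Real.sqrt h := Real.sqrt_pos.2 hh
  have hL0 : 0 ≤ a / Real.sqrt h := by positivity
  -- the posterior means of the squares
  obtain ⟨hPc, hPe⟩ := hF5 (fun x => f x ^ 2) hf2c ⟨a ^ 2, fun x => by
    rw [abs_of_nonneg (sq_nonneg _)]; exact hf2b x⟩
  obtain ⟨hGc, hGe⟩ := hF5 (fun x => ‖fderiv ℝ f x‖ ^ 2) hgc ⟨C0 ^ 2, fun x => by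
    rw [abs_of_nonneg (sq_nonneg _)]; exact hgb x⟩
  obtain ⟨-, hFe⟩ := hF5 f hfc ⟨a, hfa⟩
  have hPb : ∀ y, |po h ν (fun x => f x ^ 2) y| ≤ a ^ 2 := fun y => by
    rw [abs_of_nonneg (po_nonneg (fun x => sq_nonneg _) y)]
    exact po_le hν hf2c (sq_nonneg _) hf2b y
  have hGb : ∀ y, |po h ν (fun x => ‖fderiv ℝ f x‖ ^ 2) y| ≤ C0 ^ 2 := fun y => by
    rw [abs_of_nonneg (po_nonneg (fun x => sq_nonneg _) y)]
    exact po_le hν hgc (sq_nonneg _) hgb y
  have hDF : ∀ y, ‖fderiv ℝ F y‖ ≤ a / Real.sqrt h := by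
    intro y
    have e1 := hF3 y
    have e2 := (abs_le.1 (hPb y)).2
    have e3 : h * ‖fderiv ℝ F y‖ ^ 2 ≤ a ^ 2 := by nlinarith [sq_nonneg (F y)]
    have e4 : ‖fderiv ℝ F y‖ ^ 2 ≤ (a / Real.sqrt h) ^ 2 := by
      rw [div_pow, Real.sq_sqrt hh.le, le_div_iff₀ hh]
      linarith
    exact (abs_le_of_sq_le_sq' e4 hL0).2
  have hBL : BL (max a (a / Real.sqrt h)) F :=
    ⟨hF1, fun y => (hF2 y).trans (le_max_left _ _), fun y => (hDF y).trans (le_max_right _ _)⟩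
  set M := max a (a / Real.sqrt h) with hM
  have hg := gs_deriv h hh F hBL.c1 M hBL.bd hBL.gd
  have hgn := cont_nfd hBL
  have hgnb := bd_nfd hBL
  have hF2c : Continuous fun y => F y ^ 2 := hFc.pow 2
  have hF2b : ∀ y, |F y ^ 2| ≤ a ^ 2 := fun y => by
    rw [abs_pow]
    exact pow_le_pow_left₀ (abs_nonneg _) (hF2 y) 2
  have hcg : Continuous (gs h F) := hg.1.continuous
  -- the variance
  set V : E k → ℝ := fun y => po h ν (fun x => f x ^ 2) y - F y ^ 2 with hV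
  have hVc : Continuous V := hPc.sub hF2c
  have hVb : ∀ y, |V y| ≤ a ^ 2 + a ^ 2 := fun y =>
    (abs_sub _ _).trans (add_le_add (hPb y) (hF2b y))
  have eV : ey h ν V = (∫ x, f x ^ 2 ∂ν) - ey h ν (fun y => F y ^ 2) := by
    rw [hV, ey_sub rep hh hν hPc hF2c (lg_of_bd hPb) (lg_of_bd hF2b), hPe]
  have i1 : h * ey h ν (fun y => ‖fderiv ℝ F y‖ ^ 2) ≤ ey h ν V := by
    rw [← ey_cm]
    refine ey_mono rep hh hν (continuous_const.mul hgn) hVc
      (lg_of_bd (B := h * M ^ 2) fun y => ?_) (lg_of_bd hVb) fun y => hF3 y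
    rw [abs_mul, abs_of_pos hh]
    exact mul_le_mul_of_nonneg_left (hgnb y) hh.le
  have i2 : ey h ν V ≤ h * ∫ x, ‖fderiv ℝ f x‖ ^ 2 ∂ν := by
    rw [← hGe, ← ey_cm]
    refine ey_mono rep hh hν hVc (continuous_const.mul hGc) (lg_of_bd hVb)
      (lg_of_bd (B := h * C0 ^ 2) fun y => ?_) fun y => hF4 y
    rw [abs_mul, abs_of_pos hh]
    exact mul_le_mul_of_nonneg_left (hGb y) hh.le
  have i3 : ∫ x, ‖fderiv ℝ (gs h F) x‖ ^ 2 ∂ν ≤ ey h ν (fun y => ‖fderiv ℝ F y‖ ^ 2) := by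
    refine integral_mono (pb_int hν ((hg.1.continuous_fderiv (by norm_num)).norm.pow 2))
      (ey_int rep hh hν hgn (lg_of_bd hgnb)) fun x => ?_
    exact grad_gs hh (fun g C hgc hgb x => gs_sq be hh hgc hgb x) hBL x
  have i4 : ey h ν (fun y => F y ^ 2) - ∫ x, gs h F x ^ 2 ∂ν ≤
      h * ey h ν (fun y => ‖fderiv ℝ F y‖ ^ 2) := by
    have j1 : Integrable (gs h fun y => F y ^ 2) ν := ey_int rep hh hν hF2c (lg_of_bd hF2b)
    have j2 : Integrable (fun x => gs h F x ^ 2) ν := pb_int hν (hcg.pow 2)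
    have j3 : Integrable (gs h fun y => ‖fderiv ℝ F y‖ ^ 2) ν :=
      ey_int rep hh hν hgn (lg_of_bd hgnb)
    unfold ey
    rw [← integral_sub j1 j2, ← integral_const_mul]
    exact integral_mono (j1.sub j2) (j3.const_mul h) fun x => gp k h M F hh hBL x
  have i5 : ∫ x, f x ∂ν = ∫ x, gs h F x ∂ν := hFe.symm
  refine ⟨gs h F, hg.1, fun y => T6aux.gs_le_bd hh hFc hF2 y,
    fun y => T6aux.grad_le hh hBL hL0 hDF y, ?_, ?_⟩
  · have e1 := i1.trans i2
    exact i3.trans (le_of_mul_le_mul_left e1 hh)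
  · rw [i5]
    linarith

end Pool.Agent.N342.KM
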